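import Pool.Agent.KT3.StmtsC

/-!
# KT3 squad, row EPQ: the bottom eigenvector in the box
-/

set_option autoImplicit false

open Matrix Filter Topology

namespace Pool.Agent.KT3.H41

open Pool.Agent.PFS Pool.Agent.PFJ Pool.Agent.NBT

noncomputable def Hm {n : ℕ} (c : ℝ) (g : GL (Fin n) ℝ) : V n →ₗ[ℝ] V n :=
  c • Matrix.mulVecLin ((g⁻¹ : GL (Fin n) ℝ) : Matrix (Fin n) (Fin n) ℝ)

theorem Hm_apply {n : ℕ} (c : ℝ) (g : GL (Fin n) ℝ) (x : V n) :
    Hm c g x = c • act g⁻¹ x := rfl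

theorem sum_eq {n K : ℕ} (w : Fin K → V n) (i : Fin K) : ∑ j, w j = w i + fS w {i}ᶜ := by
  unfold fS
  have := Finset.sum_add_sum_compl ({i} : Finset (Fin K)) w
  rw [Finset.sum_singleton] at this
  exact this.symm

theorem epq (phe : PheStmt) (uni : UniStmt) (att : AttStmt) : EpqStmt := by
  intro n k C Γ hk T hT a i1 hi1 ha
  have hcc : CC C Γ := hk.toCC
  have hc : PCone C := hcc.toPCone
  obtain ⟨κ, hκ, hU⟩ := uni n C Γ (k + 1) hk (1 / 800) (by norm_num)
  have hk0 : (0 : ℝ) ≤ k := Nat.cast_nonneg k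
  obtain ⟨A, hA⟩ : ∃ A : ℝ, A = ((k : ℝ) + 1) * (κ + 1) := ⟨_, rfl⟩
  have hA1 : 1 ≤ A := by rw [hA]; nlinarith
  have hAk : (k : ℝ) ≤ A := by rw [hA]; nlinarith
  have hAκ : κ * k ≤ A := by rw [hA]; nlinarith
  obtain ⟨ε₀, hε⟩ : ∃ ε₀ : ℝ, ε₀ = 1 / (1600 * A) := ⟨_, rfl⟩
  have hε0 : 0 < ε₀ := by rw [hε]; positivity
  have hAε : A * ε₀ = 1 / 1600 := by
    rw [hε]; field_simp
  have hε1 : ε₀ ≤ 1 / 1600 := by nlinarith
  have hεk : (k : ℝ) * ε₀ ≤ 1 / 1600 := by nlinarith
  have hεκ : κ * k * ε₀ ≤ 1 / 1600 := by nlinarith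
  have hev2 : ∀ᶠ σ : ℝ in atTop, ∀ i, i ≠ 0 → i ≠ i1 →
      Real.exp (-((a i - a i1) * σ)) ≤ ε₀ := by
    rw [eventually_all]
    intro i
    by_cases h0 : i = 0
    · exact Eventually.of_forall fun σ h => absurd h0 h
    by_cases h1 : i = i1
    · exact Eventually.of_forall fun σ _ h => absurd h1 h
    have hpos : 0 < a i - a i1 := sub_pos.mpr (ha i h0 h1)
    have h2 : Tendsto (fun σ : ℝ => (a i - a i1) * σ) atTop atTop :=
      tendsto_id.const_mul_atTop hpos
    have h3 := Real.tendsto_exp_neg_atTop_nhds_zero.comp h2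
    filter_upwards [h3.eventually (ge_mem_nhds hε0)] with σ hσ _ _ using hσ
  obtain ⟨S₀, hS⟩ := eventually_atTop.mp hev2
  refine ⟨ε₀, S₀, hε0, ?_⟩
  intro ε σ w z L g s lam hle hσ hLG
  have hexp := hS σ hσ
  have hw := hT.pes w hLG.tw
  obtain ⟨φ, hφ⟩ := phe n C Γ (k + 1) hk w hw i1
  have hwc : ∀ i, w i ∈ closure C := fun i => hw.1.cl i
  obtain ⟨f, hf⟩ : ∃ f : V n, f = fS w ({0}ᶜ : Finset (Fin (k + 1))) := ⟨_, rfl⟩
  have hsum : ∑ j, w j = w 0 + f := by rw [hf]; exact sum_eq w 0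
  have hfL : f ∈ L := by
    rw [hf]; exact Submodule.sum_mem _ fun i hi => hLG.box.mem i hi
  have hfc : f ∈ closure C := by rw [hf]; exact hc.cl_sum fun i _ => hwc i
  have hi1m : i1 ∈ ({0}ᶜ : Finset (Fin (k + 1))) := by simpa using hi1
  obtain ⟨h, hh⟩ : ∃ h : V n, h = ∑ i ∈ ({0}ᶜ : Finset (Fin (k + 1))).erase i1, w i :=
    ⟨_, rfl⟩
  have hfh : f = w i1 + h := by
    rw [hf, hh]; exact (Finset.add_sum_erase _ w hi1m).symm
  have hhL : h ∈ L := by
    rw [hh]; exact Submodule.sum_mem _ fun i hi => hLG.box.mem i (Finset.mem_of_mem_erase hi)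
  have hhc : h ∈ closure C := by rw [hh]; exact hc.cl_sum fun i _ => hwc i
  have hwf : ∀ i, i ≠ 0 → f - w i ∈ closure C := by
    intro i hi
    have hm : i ∈ ({0}ᶜ : Finset (Fin (k + 1))) := by simpa using hi
    have e1 : f - w i = ∑ j ∈ ({0}ᶜ : Finset (Fin (k + 1))).erase i, w j := by
      rw [hf, fS, ← Finset.add_sum_erase _ w hm]; abel
    rw [e1]; exact hc.cl_sum fun i _ => hwc i
  have hfi1 : fS w {i1}ᶜ = w 0 + h := by
    have e1 := sum_eq w i1
    rw [hsum, hfh] at e1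
    have : w i1 + fS w {i1}ᶜ = w i1 + (w 0 + h) := by rw [← e1]; abel
    exact add_left_cancel this
  have hw0 : fS w ({0}ᶜ : Finset (Fin (k + 1)))ᶜ = w 0 := by
    rw [compl_compl, fS, Finset.sum_singleton]
  have hbox : ∀ v ∈ L, ∀ M : ℝ, 0 ≤ M → v + M • w 0 ∈ closure C → v ∈ closure C := by
    intro v hv M hM hvM
    have hM1 : 0 < M + 1 := by linarith
    have h1 : (M + 1)⁻¹ • (v + M • w 0 + w 0) ∈ closure C :=
      hc.cl_smul (hc.cl_add hvM (hwc 0)) (by positivity)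
    have e1 : (M + 1)⁻¹ • v + fS w ({0}ᶜ : Finset (Fin (k + 1)))ᶜ =
        (M + 1)⁻¹ • (v + M • w 0 + w 0) := by
      rw [hw0]
      have e2 : v + M • w 0 + w 0 = v + (M + 1) • w 0 := by module
      rw [e2, smul_add, smul_smul, inv_mul_cancel₀ hM1.ne', one_smul]
    rw [← e1] at h1
    have h2 := hLG.box.box _ (L.smul_mem _ hv) h1
    exact (hc.cl_smul_iff (by positivity)).mp h2
  have hnr : ∀ i, i ≠ 0 → ε₀ • f - (z i - w i) ∈ closure C ∧
      ε₀ • f + (z i - w i) ∈ closure C := by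
    intro i hi
    obtain ⟨_, _, h1, h2⟩ := hLG.nr i hi
    rw [← hf] at h1 h2
    have h3 : (ε₀ - ε) • f ∈ closure C := hc.cl_smul hfc (by linarith)
    constructor
    · have := hc.cl_add h1 h3
      have e : ε • f - (z i - w i) + (ε₀ - ε) • f = ε₀ • f - (z i - w i) := by module
      rwa [e] at this
    · have := hc.cl_add h2 h3
      have e : ε • f + (z i - w i) + (ε₀ - ε) • f = ε₀ • f + (z i - w i) := by module
      rwa [e] at this
  -- the map
  obtain ⟨E, hE⟩ : ∃ E : ℝ, E = Real.exp (a i1 * σ) := ⟨_, rfl⟩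
  have hE0 : 0 < E := by rw [hE]; exact Real.exp_pos _
  have hs := hLG.s0
  obtain ⟨H, hH⟩ : ∃ H : V n →ₗ[ℝ] V n, H = Hm (E / s) g := ⟨_, rfl⟩
  have hHx : ∀ x, H x = (E / s) • act g⁻¹ x := by intro x; rw [hH]; rfl
  have hHc : ∀ x ∈ closure C, H x ∈ closure C := by
    intro x hx
    rw [hHx]
    exact (hcc.sact_cl_iff (Γ.inv_mem hLG.gm) (by positivity)).mpr hx
  have hHL : ∀ x ∈ L, H x ∈ L := by
    intro x hx
    rw [hHx]
    refine L.smul_mem _ ?_
    have h1 : x ∈ img g L := by rw [hLG.inv]; exact hx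
    obtain ⟨y, hy, rfl⟩ := mem_img.mp h1
    rw [CC.act_inv_act]; exact hy
  have hHz : ∀ i, i ≠ 0 → H (z i) = Real.exp (-((a i - a i1) * σ)) • w i := by
    intro i hi
    have h1 := hLG.ei i hi
    have h2 : z i = (Real.exp (a i * σ))⁻¹ • s • act g (w i) := by
      rw [h1, smul_smul, inv_mul_cancel₀ (Real.exp_pos _).ne', one_smul]
    rw [h2, hHx, CC.act_smul, CC.act_smul, CC.act_inv_act, smul_smul, smul_smul]
    congr 1
    have h3 : Real.exp (-((a i - a i1) * σ)) = E * (Real.exp (a i * σ))⁻¹ := by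
      rw [hE, ← Real.exp_neg, ← Real.exp_add]; congr 1; ring
    rw [h3]
    field_simp
  have hHz1 : H (z i1) = w i1 := by
    rw [hHz i1 hi1, sub_self, zero_mul, neg_zero, Real.exp_zero, one_smul]
  have hcard : (({0}ᶜ : Finset (Fin (k + 1))).card : ℝ) = k := by
    rw [Finset.card_compl, Fintype.card_fin, Finset.card_singleton, Nat.add_sub_cancel]
  obtain ⟨fz, hfz⟩ : ∃ fz : V n, fz = ∑ i ∈ ({0}ᶜ : Finset (Fin (k + 1))), z i := ⟨_, rfl⟩
  have hne : ∀ i ∈ ({0}ᶜ : Finset (Fin (k + 1))), i ≠ 0 := by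
    intro i hi; simpa using hi
  have B1 : (2 : ℝ) • fz - f ∈ closure C := by
    have h1 : ∑ i ∈ ({0}ᶜ : Finset (Fin (k + 1))), (ε₀ • f + (z i - w i)) ∈ closure C :=
      hc.cl_sum fun i hi => (hnr i (hne i hi)).2
    have e1 : ∑ i ∈ ({0}ᶜ : Finset (Fin (k + 1))), (ε₀ • f + (z i - w i)) =
        (k * ε₀) • f + (fz - f) := by
      rw [Finset.sum_add_distrib, Finset.sum_sub_distrib, Finset.sum_const, hfz, hf, fS,
        ← Nat.cast_smul_eq_nsmul ℝ, hcard, smul_smul]
    rw [e1] at h1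
    have h2 := hc.cl_smul h1 (t := 2) (by norm_num)
    have h3 : (1 - 2 * (k * ε₀)) • f ∈ closure C := hc.cl_smul hfc (by linarith)
    have := hc.cl_add h2 h3
    have e : (2 : ℝ) • ((k * ε₀) • f + (fz - f)) + (1 - 2 * (k * ε₀)) • f =
        (2 : ℝ) • fz - f := by module
    rwa [e] at this
  have B2 : f - H fz ∈ closure C := by
    have e1 : f - H fz = ∑ i ∈ ({0}ᶜ : Finset (Fin (k + 1))),
        (1 - Real.exp (-((a i - a i1) * σ))) • w i := by
      rw [hfz, map_sum, hf, fS, ← Finset.sum_sub_distrib]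
      refine Finset.sum_congr rfl fun i hi => ?_
      rw [hHz i (hne i hi)]; module
    rw [e1]
    refine hc.cl_sum fun i hi => hc.cl_smul (hwc i) ?_
    by_cases h1 : i = i1
    · rw [h1, sub_self, zero_mul, neg_zero, Real.exp_zero, sub_self]
    · have := hexp i (hne i hi) h1
      linarith
  have B3 : (2 : ℝ) • f - H f ∈ closure C := by
    have h1 := hHc _ B1
    rw [map_sub, map_smul] at h1
    have h2 := hc.cl_smul B2 (t := 2) (by norm_num)
    have := hc.cl_add h1 h2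
    have e : (2 : ℝ) • H fz - H f + (2 : ℝ) • (f - H fz) = (2 : ℝ) • f - H f := by module
    rwa [e] at this
  have B4 : ∀ i, i ≠ 0 → i ≠ i1 → (3 * ε₀) • f - H (w i) ∈ closure C := by
    intro i hi hi'
    have h1 := hHc _ (hnr i hi).2
    rw [map_add, map_sub, map_smul, hHz i hi] at h1
    have h2 := hc.cl_smul B3 hε0.le
    have h3 : (ε₀ - Real.exp (-((a i - a i1) * σ))) • w i ∈ closure C :=
      hc.cl_smul (hwc i) (by linarith [hexp i hi hi'])
    have h4 := hc.cl_smul (hwf i hi) hε0.le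
    have := hc.cl_add (hc.cl_add (hc.cl_add h1 h2) h3) h4
    have e : ε₀ • H f + (Real.exp (-((a i - a i1) * σ)) • w i - H (w i)) +
        ε₀ • ((2 : ℝ) • f - H f) + (ε₀ - Real.exp (-((a i - a i1) * σ))) • w i +
        ε₀ • (f - w i) = (3 * ε₀) • f - H (w i) := by module
    rwa [e] at this
  have B5 : (k * (3 * ε₀)) • f - H h ∈ closure C := by
    have h1 : ∑ i ∈ ({0}ᶜ : Finset (Fin (k + 1))).erase i1, ((3 * ε₀) • f - H (w i)) ∈
        closure C := hc.cl_sum fun i hi =>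
      B4 i (hne i (Finset.mem_of_mem_erase hi)) (Finset.ne_of_mem_erase hi)
    have hcard2 : ((({0}ᶜ : Finset (Fin (k + 1))).erase i1).card : ℝ) ≤ k := by
      rw [← hcard]
      exact_mod_cast Finset.card_erase_le
    have e1 : ∑ i ∈ ({0}ᶜ : Finset (Fin (k + 1))).erase i1, ((3 * ε₀) • f - H (w i)) =
        (((({0}ᶜ : Finset (Fin (k + 1))).erase i1).card : ℝ) * (3 * ε₀)) • f - H h := by
      rw [Finset.sum_sub_distrib, Finset.sum_const, hh, map_sum,
        ← Nat.cast_smul_eq_nsmul ℝ, smul_smul]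
    rw [e1] at h1
    have h2 : (((k : ℝ) - ((({0}ᶜ : Finset (Fin (k + 1))).erase i1).card : ℝ)) *
        (3 * ε₀)) • f ∈ closure C :=
      hc.cl_smul hfc (mul_nonneg (by linarith) (by linarith))
    have := hc.cl_add h1 h2
    have e : (((({0}ᶜ : Finset (Fin (k + 1))).erase i1).card : ℝ) * (3 * ε₀)) • f - H h +
        (((k : ℝ) - ((({0}ᶜ : Finset (Fin (k + 1))).erase i1).card : ℝ)) *
        (3 * ε₀)) • f = (k * (3 * ε₀)) • f - H h := by module
    rwa [e] at this
  -- contraction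
  have hcon : ∀ e ∈ L, ∀ r : ℝ, 0 ≤ r →
      r • (κ • fS w {i1}ᶜ + (1 / 800 : ℝ) • ∑ j, w j) + e ∈ closure C →
      (r / 100) • f + H e ∈ closure C := by
    intro e he r hr h1
    rw [hfi1, hsum] at h1
    have hvL : r • (κ • h + (1 / 800 : ℝ) • f) + e ∈ L :=
      L.add_mem (L.smul_mem _ (L.add_mem (L.smul_mem _ hhL) (L.smul_mem _ hfL))) he
    have e1 : r • (κ • (w 0 + h) + (1 / 800 : ℝ) • (w 0 + f)) + e =
        r • (κ • h + (1 / 800 : ℝ) • f) + e + (r * (κ + 1 / 800)) • w 0 := by module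
    rw [e1] at h1
    have h2 := hbox _ hvL _ (by positivity) h1
    have h3 := hHc _ h2
    rw [map_add, map_smul, map_add, map_smul, map_smul] at h3
    have h4 := hc.cl_smul B5 (t := r * κ) (by positivity)
    have h5 := hc.cl_smul B3 (t := r * (1 / 800)) (by positivity)
    have h6 : (r * (1 / 100 - 3 * (κ * k * ε₀) - 2 / 800)) • f ∈ closure C :=
      hc.cl_smul hfc (mul_nonneg hr (by linarith))
    have := hc.cl_add (hc.cl_add (hc.cl_add h3 h4) h5) h6
    have e2 : r • (κ • H h + (1 / 800 : ℝ) • H f) + H e +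
        (r * κ) • ((k * (3 * ε₀)) • f - H h) + (r * (1 / 800)) • ((2 : ℝ) • f - H f) +
        (r * (1 / 100 - 3 * (κ * k * ε₀) - 2 / 800)) • f = (r / 100) • f + H e := by
      module
    rwa [e2] at this
  have hφf : φ f = 1 := by
    rw [hf, fS, map_sum, Finset.sum_eq_single i1]
    · exact hφ.one
    · intro j _ hj; exact hφ.zero j hj
    · intro h; exact absurd hi1m h
  have hnear : (2 * ε₀) • f - (H (w i1) - w i1) ∈ closure C ∧
      (2 * ε₀) • f + (H (w i1) - w i1) ∈ closure C := by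
    obtain ⟨h1, h2⟩ := hnr i1 hi1
    have h3 := hHc _ h1
    have h4 := hHc _ h2
    rw [map_sub, map_sub, map_smul, hHz1] at h3
    rw [map_add, map_sub, map_smul, hHz1] at h4
    have h5 := hc.cl_smul B3 hε0.le
    constructor
    · have := hc.cl_add h4 h5
      have e : ε₀ • H f + (w i1 - H (w i1)) + ε₀ • ((2 : ℝ) • f - H f) =
          (2 * ε₀) • f - (H (w i1) - w i1) := by module
      rwa [e] at this
    · have := hc.cl_add h3 h5
      have e : ε₀ • H f - (w i1 - H (w i1)) + ε₀ • ((2 : ℝ) • f - H f) =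
          (2 * ε₀) • f + (H (w i1) - w i1) := by module
      rwa [e] at this
  obtain ⟨ξ, x, lam', hξ0, hξs, hξ, hlim, hl1, hl2, hHxx⟩ := att n C hc L f (w i1) φ H
    (2 * ε₀) (by linarith) (by linarith) hfL hfc (hLG.box.mem i1 hi1m) (hwc i1)
    (hwf i1 hi1) hφ.pos hφ.one hφf hHL hHc hnear.1 hnear.2 (by
      intro e he r hr hφe h1 h2
      have h3 : r • (∑ j, w j) - e ∈ closure C := by
        have := hc.cl_add h1 (hc.cl_smul (hwc 0) hr)
        rw [hsum]
        have e' : r • f - e + r • w 0 = r • (w 0 + f) - e := by module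
        rwa [e'] at this
      have h4 : r • (∑ j, w j) + e ∈ closure C := by
        have := hc.cl_add h2 (hc.cl_smul (hwc 0) hr)
        rw [hsum]
        have e' : r • f + e + r • w 0 = r • (w 0 + f) + e := by module
        rwa [e'] at this
      obtain ⟨h5, h6⟩ := hU w hw i1 φ hφ e r hφe hr h3 h4
      constructor
      · have := hcon (-e) (L.neg_mem he) r hr (by rw [← sub_eq_add_neg]; exact h5)
        rwa [map_neg, ← sub_eq_add_neg] at this
      · exact hcon e he r hr h6)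
  have hξc : ∀ j, ξ j ∈ closure C := by
    intro j
    induction j with
    | zero => rw [hξ0]; exact hwc i1
    | succ j ih =>
      obtain ⟨h1, h2⟩ := hξs j
      rw [h2]
      exact hc.cl_smul (hHc _ ih) (by positivity)
  have hl0 : 0 < lam' := by linarith
  have hE2 : E / lam' * lam' = E := div_mul_cancel₀ _ hl0.ne'
  have hclim : ∀ y : ℕ → V n, (∀ j, y j ∈ closure C) → ∀ y0 : V n,
      Tendsto y atTop (𝓝 y0) → y0 ∈ closure C := by
    intro y hy y0 h
    exact isClosed_closure.mem_of_tendsto h (Eventually.of_forall hy)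
  refine ⟨x, E / lam', ?_, ?_, ?_, ?_, ?_, ?_, ?_⟩
  · exact (Submodule.closed_of_finiteDimensional L).mem_of_tendsto hlim
      (Eventually.of_forall fun j => (hξ j).1)
  · exact hclim ξ hξc x hlim
  · rw [hHx] at hHxx
    have h1 := congrArg (act g) hHxx
    rw [CC.act_smul, CC.act_act_inv, CC.act_smul] at h1
    -- (E / s) • x = lam' • act g x
    have h2 : s • act g x = (s / lam') • (lam' • act g x) := by
      rw [smul_smul, div_mul_cancel₀ _ hl0.ne']
    rw [h2, ← h1, smul_smul]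
    congr 1
    field_simp
  · rw [← hE]
    rw [div_le_div_iff₀ (by norm_num) hl0]
    nlinarith
  · rw [← hE]
    rw [div_le_iff₀ hl0]
    nlinarith
  · rw [← hf]
    have h1 : (10 * (2 * ε₀)) • f - (x - w i1) ∈ closure C := by
      refine hclim (fun j => (10 * (2 * ε₀)) • f - (ξ j - w i1)) (fun j => (hξ j).2.2.1) _ ?_
      exact tendsto_const_nhds.sub (hlim.sub tendsto_const_nhds)
    have h2 : (1 / 4 - 10 * (2 * ε₀)) • f ∈ closure C := hc.cl_smul hfc (by linarith)
    have := hc.cl_add h1 h2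
    have e : (10 * (2 * ε₀)) • f - (x - w i1) + (1 / 4 - 10 * (2 * ε₀)) • f =
        (1 / 4 : ℝ) • f - (x - w i1) := by module
    rwa [e] at this
  · rw [← hf]
    have h1 : (10 * (2 * ε₀)) • f + (x - w i1) ∈ closure C := by
      refine hclim (fun j => (10 * (2 * ε₀)) • f + (ξ j - w i1)) (fun j => (hξ j).2.2.2) _ ?_
      exact tendsto_const_nhds.add (hlim.sub tendsto_const_nhds)
    have h2 : (1 / 4 - 10 * (2 * ε₀)) • f ∈ closure C := hc.cl_smul hfc (by linarith)
    have := hc.cl_add h1 h2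
    have e : (10 * (2 * ε₀)) • f + (x - w i1) + (1 / 4 - 10 * (2 * ε₀)) • f =
        (1 / 4 : ℝ) • f + (x - w i1) := by module
    rwa [e] at this

end Pool.Agent.KT3.H41
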